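import Pool.Agent.Results.MP_93bd63_co.LeastDimension

/-!
# How many facets of a uniform simplex can be stable

For `n ≥ 1` there is an `n`-simplex with exactly `k` stable facets if and only if
`2 ≤ k ≤ n + 1`, or `k = 1` and `n ≥ 10`; the examples are robust. An unstable facet is added
by splitting one facet normal `w` into `(1 - ε) w` and `ε w`, with last coordinates `-ε` and `ε`.
-/

namespace Pool.Agent.Results.MP_93bd63_co.AllDimensions

open Finset Pool.Agent.Results.MP_93bd63_co.LeastDimension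

/-- A strict configuration of facet normals: zero sum, spanning, the indices in `T` strictly
stable, the other ones strictly unstable. -/
structure Cfg (n : ℕ) (w : Fin (n + 1) → Fin n → ℝ) (T : Finset (Fin (n + 1))) : Prop where
  sum : ∑ i, w i = 0
  inj : ∀ x : Fin n → ℝ, (∀ i, w i ⬝ᵥ x = 0) → x = 0
  st : ∀ i ∈ T, ∀ j, j ≠ i → w i ⬝ᵥ w j < w i ⬝ᵥ w i
  un : ∀ i, i ∉ T → ∃ j, w i ⬝ᵥ w i < w i ⬝ᵥ w j

theorem sum_dot {n : ℕ} {w : Fin (n + 1) → Fin n → ℝ} (h : ∑ i, w i = 0) (x : Fin n → ℝ) :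
    ∑ i, w i ⬝ᵥ x = 0 := by
  have : (∑ i, w i) ⬝ᵥ x = ∑ i, w i ⬝ᵥ x := by
    rw [sum_dotProduct]
  rw [← this, h, zero_dotProduct]

/-- Dual vertices. -/
theorem exists_vertices {n : ℕ} {w : Fin (n + 1) → Fin n → ℝ} {T : Finset (Fin (n + 1))}
    (h : Cfg n w T) :
    ∃ v : Fin (n + 1) → Fin n → ℝ, ∀ i j, w i ⬝ᵥ v j = (if i = j then 1 else 0) - ((n : ℝ) + 1)⁻¹ := by
  have hn1 : (n : ℝ) + 1 ≠ 0 := by positivity
  let M : Matrix (Fin n) (Fin n) ℝ := Matrix.of fun i k => w i.castSucc k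
  have hM : ∀ (x : Fin n → ℝ) (i : Fin n), (M.mulVecLin x) i = w i.castSucc ⬝ᵥ x := by
    intro x i
    rfl
  have hinj : Function.Injective M.mulVecLin := by
    rw [← LinearMap.ker_eq_bot, LinearMap.ker_eq_bot']
    intro x hx
    have h1 : ∀ i : Fin n, w i.castSucc ⬝ᵥ x = 0 := by
      intro i
      rw [← hM, hx]; rfl
    apply h.inj x
    intro i
    refine Fin.lastCases ?_ (fun i => h1 i) i
    have h2 := sum_dot h.sum x
    rw [Fin.sum_univ_castSucc] at h2
    simpa [h1] using h2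
  have hsurj : Function.Surjective M.mulVecLin := LinearMap.injective_iff_surjective.mp hinj
  choose v hv using fun j : Fin (n + 1) =>
    hsurj (fun i : Fin n => (if i.castSucc = j then 1 else 0) - ((n : ℝ) + 1)⁻¹)
  have hv1 : ∀ (i : Fin n) (j : Fin (n + 1)),
      w i.castSucc ⬝ᵥ v j = (if i.castSucc = j then 1 else 0) - ((n : ℝ) + 1)⁻¹ := by
    intro i j
    rw [← hM, hv]
  refine ⟨v, fun i j => ?_⟩
  refine Fin.lastCases ?_ (fun i => hv1 i j) i
  have h2 := sum_dot h.sum (v j)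
  rw [Fin.sum_univ_castSucc] at h2
  simp_rw [hv1] at h2
  rw [Finset.sum_sub_distrib] at h2
  simp only [Finset.sum_const, Finset.card_univ, Fintype.card_fin, nsmul_eq_mul] at h2
  refine Fin.lastCases (motive := fun j => (∑ x : Fin n, (if x.castSucc = j then (1 : ℝ) else 0) -
    (n : ℝ) * ((n : ℝ) + 1)⁻¹ + w (Fin.last n) ⬝ᵥ v j = 0) →
    w (Fin.last n) ⬝ᵥ v j = (if Fin.last n = j then 1 else 0) - ((n : ℝ) + 1)⁻¹) ?_ ?_ j h2
  · intro h3
    have h4 : ∀ x : Fin n, x.castSucc ≠ Fin.last n := fun x => (Fin.castSucc_lt_last x).ne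
    simp only [h4, if_false, Finset.sum_const_zero, if_true] at h3 ⊢
    have : (n : ℝ) * ((n : ℝ) + 1)⁻¹ = 1 - ((n : ℝ) + 1)⁻¹ := by field_simp; ring
    linarith
  · intro j h3
    have h4 : Fin.last n ≠ j.castSucc := (Fin.castSucc_lt_last j).ne'
    simp only [Fin.castSucc_inj, Finset.sum_ite_eq', Finset.mem_univ, if_true, h4, if_false] at h3 ⊢
    have : (n : ℝ) * ((n : ℝ) + 1)⁻¹ = 1 - ((n : ℝ) + 1)⁻¹ := by field_simp; ring
    linarith

/-- A family with dual vectors is the vertex family of a simplex. -/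
theorem simplex_of_dual {n : ℕ} (w v : Fin (n + 1) → EuclideanSpace ℝ (Fin n))
    (h : ∀ i j, inner ℝ (w i) (v j) = (if i = j then (1 : ℝ) else 0) - ((n : ℝ) + 1)⁻¹) :
    ∃ S : Affine.Simplex ℝ (EuclideanSpace ℝ (Fin n)) n, ∀ i x y,
      (toBasis S).coord i x - (toBasis S).coord i y = inner ℝ (w i) (x - y) := by
  have hind : AffineIndependent ℝ v := by
    rw [affineIndependent_iff]
    intro s c hc hs i hi
    have h1 : inner ℝ (w i) (∑ e ∈ s, c e • v e) = 0 := by
      rw [hs, inner_zero_right]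
    rw [inner_sum] at h1
    simp_rw [real_inner_smul_right, h] at h1
    have h2 : ∀ e, c e * ((if i = e then (1 : ℝ) else 0) - ((n : ℝ) + 1)⁻¹) =
        -((n : ℝ) + 1)⁻¹ * c e + (if i = e then c e else 0) := by
      intro e
      split_ifs <;> ring
    simp_rw [h2] at h1
    rw [Finset.sum_add_distrib, ← Finset.mul_sum, hc, Finset.sum_ite_eq, if_pos hi] at h1
    linarith
  let S : Affine.Simplex ℝ (EuclideanSpace ℝ (Fin n)) n := ⟨v, hind⟩
  refine ⟨S, fun i x y => ?_⟩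
  have key : ∀ x : EuclideanSpace ℝ (Fin n), inner ℝ (w i) x =
      (toBasis S).coord i x - ((n : ℝ) + 1)⁻¹ := by
    intro x
    have e1 : ∑ k, (toBasis S).coord k x • (toBasis S) k = x :=
      (toBasis S).linear_combination_coord_eq_self x
    have e2 : ∑ k, (toBasis S).coord k x = 1 := (toBasis S).sum_coord_apply_eq_one x
    conv_lhs => rw [← e1]
    rw [inner_sum]
    have e3 : ∀ k, inner ℝ (w i) ((toBasis S).coord k x • (toBasis S) k) =
        -((n : ℝ) + 1)⁻¹ * (toBasis S).coord k x + (if i = k then (toBasis S).coord k x else 0) := by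
      intro k
      have : (toBasis S) k = v k := rfl
      rw [this, real_inner_smul_right, h]
      split_ifs <;> ring
    simp_rw [e3]
    rw [Finset.sum_add_distrib, ← Finset.mul_sum, e2, Finset.sum_ite_eq]
    simp
    ring
  rw [inner_sub_right, key, key]
  ring

theorem inner_toLp {n : ℕ} (a b : Fin n → ℝ) :
    inner ℝ (WithLp.toLp 2 a : EuclideanSpace ℝ (Fin n)) (WithLp.toLp 2 b) = a ⬝ᵥ b := by
  simp [PiLp.inner_apply, dotProduct, mul_comm]

theorem exists_simplex {n : ℕ} (hn : 1 ≤ n) {w : Fin (n + 1) → Fin n → ℝ}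
    {T : Finset (Fin (n + 1))} (h : Cfg n w T) :
    ∃ S : Affine.Simplex ℝ (EuclideanSpace ℝ (Fin n)) n, ∀ i, StableFacet S i ↔ i ∈ T := by
  obtain ⟨v, hv⟩ := exists_vertices h
  obtain ⟨S, hS⟩ := simplex_of_dual (fun i => (WithLp.toLp 2 (w i) : EuclideanSpace ℝ (Fin n)))
    (fun j => (WithLp.toLp 2 (v j) : EuclideanSpace ℝ (Fin n))) (by
      intro i j
      rw [inner_toLp, hv])
  refine ⟨S, fun i => ?_⟩
  rw [stableFacet_iff hn S _ hS]
  simp_rw [inner_toLp]
  constructor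
  · intro h1
    by_contra h2
    obtain ⟨j, hj⟩ := h.un i h2
    have hji : j ≠ i := by
      rintro rfl
      exact lt_irrefl _ hj
    exact lt_asymm hj (h1 j hji)
  · intro h1
    exact h.st i h1

/-! ### adding an unstable facet -/

theorem dot_snoc {n : ℕ} (u v : Fin n → ℝ) (a b : ℝ) :
    (Fin.snoc u a : Fin (n + 1) → ℝ) ⬝ᵥ (Fin.snoc v b : Fin (n + 1) → ℝ) = u ⬝ᵥ v + a * b := by
  simp [dotProduct, Fin.sum_univ_castSucc]

/-- the new family -/
noncomputable def nw {n : ℕ} (w : Fin (n + 1) → Fin n → ℝ) (r : Fin (n + 1)) (ε : ℝ) :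
    Fin (n + 2) → Fin (n + 1) → ℝ :=
  Fin.snoc (fun i => (Fin.snoc ((if i = r then 1 - ε else 1) • w i) (if i = r then -ε else 0) :
    Fin (n + 1) → ℝ)) (Fin.snoc (ε • w r) ε : Fin (n + 1) → ℝ)

theorem nw_castSucc {n : ℕ} (w : Fin (n + 1) → Fin n → ℝ) (r : Fin (n + 1)) (ε : ℝ)
    (i : Fin (n + 1)) : nw w r ε i.castSucc =
      Fin.snoc ((if i = r then 1 - ε else 1) • w i) (if i = r then -ε else 0) := by
  simp [nw]

theorem nw_last {n : ℕ} (w : Fin (n + 1) → Fin n → ℝ) (r : Fin (n + 1)) (ε : ℝ) :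
    nw w r ε (Fin.last (n + 1)) = Fin.snoc (ε • w r) ε := by
  simp [nw]

theorem dot_cc {n : ℕ} (w : Fin (n + 1) → Fin n → ℝ) (r : Fin (n + 1)) (ε : ℝ)
    (i j : Fin (n + 1)) : nw w r ε i.castSucc ⬝ᵥ nw w r ε j.castSucc =
      (if i = r then 1 - ε else 1) * (if j = r then 1 - ε else 1) * (w i ⬝ᵥ w j) +
        (if i = r then -ε else 0) * (if j = r then -ε else 0) := by
  rw [nw_castSucc, nw_castSucc, dot_snoc, smul_dotProduct, dotProduct_smul, smul_eq_mul,
    smul_eq_mul, mul_assoc]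

theorem dot_cl {n : ℕ} (w : Fin (n + 1) → Fin n → ℝ) (r : Fin (n + 1)) (ε : ℝ)
    (i : Fin (n + 1)) : nw w r ε i.castSucc ⬝ᵥ nw w r ε (Fin.last (n + 1)) =
      (if i = r then 1 - ε else 1) * ε * (w i ⬝ᵥ w r) + (if i = r then -ε else 0) * ε := by
  rw [nw_castSucc, nw_last, dot_snoc, smul_dotProduct, dotProduct_smul, smul_eq_mul,
    smul_eq_mul, mul_assoc]

theorem dot_ll {n : ℕ} (w : Fin (n + 1) → Fin n → ℝ) (r : Fin (n + 1)) (ε : ℝ) :
    nw w r ε (Fin.last (n + 1)) ⬝ᵥ nw w r ε (Fin.last (n + 1)) =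
      ε * ε * (w r ⬝ᵥ w r) + ε * ε := by
  rw [nw_last, dot_snoc, smul_dotProduct, dotProduct_smul, smul_eq_mul, smul_eq_mul, mul_assoc]

theorem nw_sum {n : ℕ} {w : Fin (n + 1) → Fin n → ℝ} (h : ∑ i, w i = 0) (r : Fin (n + 1))
    (ε : ℝ) : ∑ i, nw w r ε i = 0 := by
  have h1 : ∀ k : Fin n, ∑ i, w i k = 0 := by
    intro k
    have := congrFun h k
    simpa using this
  funext k
  rw [Fin.sum_univ_castSucc]
  simp_rw [nw_castSucc, nw_last]
  simp only [Pi.add_apply, Finset.sum_apply, Pi.zero_apply]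
  refine Fin.lastCases ?_ (fun k => ?_) k
  · simp
  · simp only [Fin.snoc_castSucc, Pi.smul_apply, smul_eq_mul]
    have h2 : ∀ i, (if i = r then 1 - ε else 1) * w i k = w i k - (if i = r then ε * w i k else 0) := by
      intro i
      split_ifs <;> ring
    simp_rw [h2]
    rw [Finset.sum_sub_distrib, h1, Finset.sum_ite_eq']
    simp

theorem nw_inj {n : ℕ} {w : Fin (n + 1) → Fin n → ℝ} (h : ∑ i, w i = 0)
    (hinj : ∀ x : Fin n → ℝ, (∀ i, w i ⬝ᵥ x = 0) → x = 0) (r : Fin (n + 1))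
    {ε : ℝ} (hε : ε ≠ 0) (x : Fin (n + 1) → ℝ) (hx : ∀ i, nw w r ε i ⬝ᵥ x = 0) : x = 0 := by
  obtain ⟨y, a, rfl⟩ : ∃ (y : Fin n → ℝ) (a : ℝ), x = Fin.snoc y a :=
    ⟨fun i => x i.castSucc, x (Fin.last n), by
      funext k
      refine Fin.lastCases ?_ (fun k => ?_) k <;> simp⟩
  have h1 : ∀ i, i ≠ r → w i ⬝ᵥ y = 0 := by
    intro i hi
    have := hx i.castSucc
    rw [nw_castSucc, dot_snoc, if_neg hi, if_neg hi, one_smul, zero_mul, add_zero] at this
    exact this
  have h2 : w r ⬝ᵥ y = 0 := by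
    have := sum_dot h y
    rw [Finset.sum_eq_single r (fun i _ hi => h1 i hi) (by simp)] at this
    exact this
  have h3 : y = 0 := by
    apply hinj
    intro i
    by_cases hi : i = r
    · rw [hi]; exact h2
    · exact h1 i hi
  have h4 := hx (Fin.last (n + 1))
  rw [nw_last, dot_snoc, smul_dotProduct, h2, smul_zero, zero_add] at h4
  have h5 : a = 0 := by
    rcases mul_eq_zero.mp h4 with h | h
    · exact absurd h hε
    · exact h
  subst h3 h5
  funext k
  refine Fin.lastCases ?_ (fun k => ?_) k <;> simp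

theorem step {n : ℕ} (hn : 1 ≤ n) {w : Fin (n + 1) → Fin n → ℝ}
    {T : Finset (Fin (n + 1))} (h : Cfg n w T) :
    ∃ (w' : Fin (n + 2) → Fin (n + 1) → ℝ) (T' : Finset (Fin (n + 2))),
      Cfg (n + 1) w' T' ∧ T'.card = T.card := by
  -- a nonzero vector
  obtain ⟨r, hr⟩ : ∃ r, w r ≠ 0 := by
    by_contra hcon
    push Not at hcon
    have := h.inj (fun _ => 1) (by intro i; rw [hcon i, zero_dotProduct])
    have h2 := congrFun this ⟨0, by omega⟩
    simp at h2
  have hrr : 0 < w r ⬝ᵥ w r := by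
    have h0 : 0 ≤ w r ⬝ᵥ w r := by
      have := real_inner_self_nonneg (F := EuclideanSpace ℝ (Fin n)) (x := WithLp.toLp 2 (w r))
      rwa [inner_toLp] at this
    rcases h0.lt_or_eq with h1 | h1
    · exact h1
    · exfalso
      exact hr (dotProduct_self_eq_zero.mp h1.symm)
  -- continuity
  have hcc : ∀ i j : Fin (n + 1), Continuous fun ε : ℝ => nw w r ε i.castSucc ⬝ᵥ nw w r ε j.castSucc := by
    intro i j
    simp_rw [dot_cc]
    by_cases hi : i = r <;> by_cases hj : j = r <;> simp only [hi, hj, if_true, if_false] <;> fun_prop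
  have hcl : ∀ i : Fin (n + 1), Continuous fun ε : ℝ => nw w r ε i.castSucc ⬝ᵥ nw w r ε (Fin.last (n + 1)) := by
    intro i
    simp_rw [dot_cl]
    by_cases hi : i = r <;> simp only [hi, if_true, if_false] <;> fun_prop
  have hz : ∀ i j : Fin (n + 1), nw w r 0 i.castSucc ⬝ᵥ nw w r 0 j.castSucc = w i ⬝ᵥ w j := by
    intro i j
    rw [dot_cc]
    simp
  have hzl : ∀ i : Fin (n + 1), nw w r 0 i.castSucc ⬝ᵥ nw w r 0 (Fin.last (n + 1)) = 0 := by
    intro i
    rw [dot_cl]
    simp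
  -- stable facets
  have e1 : ∀ i ∈ T, ∀ j, j ≠ i → ∀ᶠ ε in nhds (0 : ℝ),
      nw w r ε i.castSucc ⬝ᵥ nw w r ε j.castSucc < nw w r ε i.castSucc ⬝ᵥ nw w r ε i.castSucc := by
    intro i hi j hj
    apply (hcc i j).continuousAt.eventually_lt (hcc i i).continuousAt
    rw [hz, hz]
    exact h.st i hi j hj
  have hpos : ∀ i ∈ T, 0 < w i ⬝ᵥ w i := by
    intro i hi
    have h0 : 0 ≤ w i ⬝ᵥ w i := by
      have := real_inner_self_nonneg (F := EuclideanSpace ℝ (Fin n)) (x := WithLp.toLp 2 (w i))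
      rwa [inner_toLp] at this
    rcases h0.lt_or_eq with h1 | h1
    · exact h1
    · exfalso
      have h2 : w i = 0 := dotProduct_self_eq_zero.mp h1.symm
      obtain ⟨j, hj⟩ : ∃ j : Fin (n + 1), j ≠ i := by
        have : Nontrivial (Fin (n + 1)) := Fin.nontrivial_iff_two_le.mpr (by omega)
        exact exists_ne i
      have h3 := h.st i hi j hj
      rw [h2, zero_dotProduct, zero_dotProduct] at h3
      exact lt_irrefl _ h3
  have e2 : ∀ i ∈ T, ∀ᶠ ε in nhds (0 : ℝ),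
      nw w r ε i.castSucc ⬝ᵥ nw w r ε (Fin.last (n + 1)) <
        nw w r ε i.castSucc ⬝ᵥ nw w r ε i.castSucc := by
    intro i hi
    apply (hcl i).continuousAt.eventually_lt (hcc i i).continuousAt
    rw [hz, hzl]
    exact hpos i hi
  have e3 : ∀ i, i ∉ T → ∀ᶠ ε in nhds (0 : ℝ), ∃ j : Fin (n + 1),
      nw w r ε i.castSucc ⬝ᵥ nw w r ε i.castSucc < nw w r ε i.castSucc ⬝ᵥ nw w r ε j.castSucc := by
    intro i hi
    obtain ⟨j, hj⟩ := h.un i hi
    have : ∀ᶠ ε in nhds (0 : ℝ), nw w r ε i.castSucc ⬝ᵥ nw w r ε i.castSucc <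
        nw w r ε i.castSucc ⬝ᵥ nw w r ε j.castSucc := by
      apply (hcc i i).continuousAt.eventually_lt (hcc i j).continuousAt
      rw [hz, hz]
      exact hj
    exact this.mono fun ε hε => ⟨j, hε⟩
  have e4 : ∀ᶠ ε in nhds (0 : ℝ), ε * (2 * (w r ⬝ᵥ w r) + 2) < w r ⬝ᵥ w r := by
    have hc : Continuous fun ε : ℝ => ε * (2 * (w r ⬝ᵥ w r) + 2) := by fun_prop
    apply hc.continuousAt.eventually_lt continuousAt_const
    simpa using hrr
  have e1' : ∀ᶠ ε in nhds (0 : ℝ), ∀ i, i ∈ T → ∀ j, j ≠ i →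
      nw w r ε i.castSucc ⬝ᵥ nw w r ε j.castSucc < nw w r ε i.castSucc ⬝ᵥ nw w r ε i.castSucc := by
    rw [Filter.eventually_all]
    intro i
    by_cases hi : i ∈ T
    · simp only [hi, true_implies]
      rw [Filter.eventually_all]
      intro j
      by_cases hj : j ≠ i
      · simp only [hj, true_implies, ne_eq, not_false_eq_true]
        exact e1 i hi j hj
      · exact Filter.Eventually.of_forall fun ε h' => absurd h' hj
    · exact Filter.Eventually.of_forall fun ε h' => absurd h' hi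
  have e2' : ∀ᶠ ε in nhds (0 : ℝ), ∀ i, i ∈ T →
      nw w r ε i.castSucc ⬝ᵥ nw w r ε (Fin.last (n + 1)) <
        nw w r ε i.castSucc ⬝ᵥ nw w r ε i.castSucc := by
    rw [Filter.eventually_all]
    intro i
    by_cases hi : i ∈ T
    · exact (e2 i hi).mono fun ε h' _ => h'
    · exact Filter.Eventually.of_forall fun ε h' => absurd h' hi
  have e3' : ∀ᶠ ε in nhds (0 : ℝ), ∀ i, i ∉ T → ∃ j : Fin (n + 1),
      nw w r ε i.castSucc ⬝ᵥ nw w r ε i.castSucc < nw w r ε i.castSucc ⬝ᵥ nw w r ε j.castSucc := by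
    rw [Filter.eventually_all]
    intro i
    by_cases hi : i ∉ T
    · exact (e3 i hi).mono fun ε h' _ => h'
    · exact Filter.Eventually.of_forall fun ε h' => absurd h' hi
  have e5 : ∀ᶠ ε in nhdsWithin (0 : ℝ) (Set.Ioi 0), _ :=
    (((e1'.and e2').and e3').and e4).filter_mono nhdsWithin_le_nhds
  obtain ⟨ε, ⟨⟨⟨f1, f2⟩, f3⟩, f4⟩, hε⟩ := (e5.and self_mem_nhdsWithin).exists
  have hε0 : (0 : ℝ) < ε := hε
  refine ⟨nw w r ε, T.map Fin.castSuccEmb, ⟨nw_sum h.sum r ε,
    nw_inj h.sum h.inj r hε0.ne', ?_, ?_⟩, by simp⟩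
  · intro i hi
    rw [Finset.mem_map] at hi
    obtain ⟨i, hi, rfl⟩ := hi
    intro j
    refine Fin.lastCases ?_ (fun j => ?_) j
    · intro _
      exact f2 i hi
    · intro hj
      exact f1 i hi j (fun e => hj (by rw [e]; rfl))
  · intro i
    refine Fin.lastCases ?_ (fun i => ?_) i
    · intro _
      refine ⟨r.castSucc, ?_⟩
      rw [dotProduct_comm (nw w r ε (Fin.last (n + 1))) (nw w r ε r.castSucc), dot_ll, dot_cl,
        if_pos rfl, if_pos rfl]
      nlinarith [mul_pos hε0 hrr]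
    · intro hi
      have hiT : i ∉ T := fun h' => hi (Finset.mem_map.mpr ⟨i, h', rfl⟩)
      obtain ⟨j, hj⟩ := f3 i hiT
      exact ⟨j.castSucc, hj⟩

/-! ### the base cases -/

theorem base_all (n : ℕ) (hn : 1 ≤ n) : ∃ w, Cfg n w Finset.univ := by
  refine ⟨Fin.snoc (fun i => Pi.single i 1) (fun _ => -1), ?_, ?_, ?_, ?_⟩
  · rw [Fin.sum_univ_castSucc]
    simp only [Fin.snoc_castSucc, Fin.snoc_last]
    funext k
    simp [Finset.sum_apply, Pi.single_apply]
  · intro x hx
    funext k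
    have := hx k.castSucc
    simpa using this
  · intro i _
    refine Fin.lastCases ?_ (fun i => ?_) i
    · intro j
      refine Fin.lastCases ?_ (fun j => ?_) j
      · intro h; exact absurd rfl h
      · intro _
        simp [dotProduct]
        have : (1 : ℝ) ≤ n := by exact_mod_cast hn
        linarith
    · intro j
      refine Fin.lastCases ?_ (fun j => ?_) j
      · intro _
        simp
      · intro hj
        have hij : i ≠ j := fun e => hj (by rw [e])
        simp [hij]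
  · intro i hi
    exact absurd (Finset.mem_univ i) hi

theorem gram_strict : ∀ i : Fin 11, i ≠ 0 → ∃ j : Fin 11,
    ∑ k, wZ i k * wZ i k < ∑ k, wZ i k * wZ j k := by
  decide +kernel

theorem sum_wZ : ∀ k : Fin 10, ∑ i, wZ i k = 0 := by
  decide +kernel

theorem dot_wZ (i j : Fin 11) : (fun k => (wZ i k : ℝ)) ⬝ᵥ (fun k => (wZ j k : ℝ)) =
    ((∑ k, wZ i k * wZ j k : ℤ) : ℝ) := by
  simp [dotProduct]

theorem base_ten : Cfg 10 (fun i k => (wZ i k : ℝ)) {0} := by
  refine ⟨?_, ?_, ?_, ?_⟩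
  · funext k
    rw [Finset.sum_apply]
    have := sum_wZ k
    have h2 : ((∑ i, wZ i k : ℤ) : ℝ) = 0 := by rw [this]; norm_num
    push_cast at h2
    simpa using h2
  · intro x hx
    have h0 := hx 0
    have h1 := hx 1
    have h2 := hx 2
    have h3 := hx 3
    have h4 := hx 4
    have h5 := hx 5
    have h6 := hx 6
    have h7 := hx 7
    have h8 := hx 8
    have h9 := hx 9
    simp [dotProduct, Fin.sum_univ_succ, wZ] at h0 h1 h2 h3 h4 h5 h6 h7 h8 h9
    have g0 : x 0 = 0 := h0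
    have g1 : x 1 = 0 := by linarith
    have g2 : x 2 = 0 := by linarith
    have g3 : x 3 = 0 := by linarith
    have g4 : x 4 = 0 := by linarith
    have g5 : x 5 = 0 := by linarith
    have g6 : x 6 = 0 := by linarith
    have g7 : x 7 = 0 := by linarith
    have g8 : x 8 = 0 := by linarith
    have g9 : x 9 = 0 := by linarith
    funext k
    fin_cases k
    · exact g0
    · exact g1
    · exact g2
    · exact g3
    · exact g4
    · exact g5
    · exact g6
    · exact g7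
    · exact g8
    · exact g9
  · intro i hi j hj
    rw [Finset.mem_singleton] at hi
    subst hi
    rw [dot_wZ, dot_wZ]
    exact_mod_cast gram_root j hj
  · intro i hi
    rw [Finset.mem_singleton] at hi
    obtain ⟨j, hj⟩ := gram_strict i hi
    refine ⟨j, ?_⟩
    rw [dot_wZ, dot_wZ]
    exact_mod_cast hj

theorem exists_cfg_up {m : ℕ} (hm : 1 ≤ m) {k : ℕ}
    (h : ∃ (w : Fin (m + 1) → Fin m → ℝ) (T : Finset (Fin (m + 1))), Cfg m w T ∧ T.card = k)
    {n : ℕ} (hn : m ≤ n) :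
    ∃ (w : Fin (n + 1) → Fin n → ℝ) (T : Finset (Fin (n + 1))), Cfg n w T ∧ T.card = k := by
  induction n, hn using Nat.le_induction with
  | base => exact h
  | succ n hmn ih =>
    obtain ⟨w, T, hw, hT⟩ := ih
    obtain ⟨w', T', hw', hT'⟩ := step (by omega) hw
    exact ⟨w', T', hw', by rw [hT', hT]⟩

theorem exists_cfg {n k : ℕ} (h : (2 ≤ k ∧ k ≤ n + 1) ∨ (k = 1 ∧ 10 ≤ n)) :
    ∃ (w : Fin (n + 1) → Fin n → ℝ) (T : Finset (Fin (n + 1))), Cfg n w T ∧ T.card = k := by
  rcases h with ⟨h1, h2⟩ | ⟨rfl, h2⟩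
  · obtain ⟨m, rfl⟩ : ∃ m, k = m + 1 := ⟨k - 1, by omega⟩
    obtain ⟨w, hw⟩ := base_all m (by omega)
    exact exists_cfg_up (by omega) ⟨w, Finset.univ, hw, by simp⟩ (by omega)
  · exact exists_cfg_up (m := 10) (by omega) ⟨_, {0}, base_ten, by simp⟩ h2

/-- At least one facet is stable. -/
theorem exists_stable {n : ℕ} (hn : 1 ≤ n) (S : Affine.Simplex ℝ (EuclideanSpace ℝ (Fin n)) n) :
    ∃ i, StableFacet S i := by
  obtain ⟨w, hw⟩ := exists_dual (toBasis S)
  obtain ⟨i, _, hi⟩ := Finset.exists_max_image Finset.univ (fun i => ‖w i‖) ⟨0, Finset.mem_univ _⟩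
  refine ⟨i, ?_⟩
  rw [stableFacet_iff hn S w hw]
  intro j hj
  have hne : w i ≠ w j := by
    intro h
    have h1 := hw i (toBasis S i) (toBasis S j)
    have h2 := hw j (toBasis S i) (toBasis S j)
    rw [AffineBasis.coord_apply_eq, AffineBasis.coord_apply_ne _ hj.symm] at h1
    rw [AffineBasis.coord_apply_eq, AffineBasis.coord_apply_ne _ hj, ← h, ← h1] at h2
    norm_num at h2
  have h3 : 0 < ‖w i - w j‖ := norm_pos_iff.mpr (sub_ne_zero.mpr hne)
  have h4 : ‖w i - w j‖ ^ 2 = ‖w i‖ ^ 2 - 2 * inner ℝ (w i) (w j) + ‖w j‖ ^ 2 :=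
    norm_sub_sq_real _ _
  have h5 : inner ℝ (w i) (w i) = ‖w i‖ ^ 2 := real_inner_self_eq_norm_sq _
  have h6 : ‖w j‖ ≤ ‖w i‖ := hi j (Finset.mem_univ j)
  rw [h5]
  nlinarith [norm_nonneg (w j), norm_nonneg (w i)]

/-! ### robustness -/

theorem eventually_good {n : ℕ} (w : Fin (n + 1) → EuclideanSpace ℝ (Fin n))
    (T : Finset (Fin (n + 1)))
    (hst : ∀ i ∈ T, ∀ j, j ≠ i → inner ℝ (w i) (w j) < inner ℝ (w i) (w i))
    (hun : ∀ i, i ∉ T → ∃ j, inner ℝ (w i) (w i) < inner ℝ (w i) (w j)) :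
    ∃ η > 0, ∀ u : Fin (n + 1) → EuclideanSpace ℝ (Fin n), (∀ i, ‖u i - w i‖ < η) →
      (∀ i ∈ T, ∀ j, j ≠ i → inner ℝ (u i) (u j) < inner ℝ (u i) (u i)) ∧
      (∀ i, i ∉ T → ∃ j, inner ℝ (u i) (u i) < inner ℝ (u i) (u j)) := by
  have hc : ∀ i j : Fin (n + 1),
      Continuous fun u : Fin (n + 1) → EuclideanSpace ℝ (Fin n) => inner ℝ (u i) (u j) := by
    intro i j
    fun_prop
  have e1 : ∀ᶠ u in nhds w, ∀ i, i ∈ T → ∀ j, j ≠ i →
      inner ℝ (u i) (u j) < inner ℝ (u i) (u i) := by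
    rw [Filter.eventually_all]
    intro i
    by_cases hi : i ∈ T
    · simp only [hi, true_implies]
      rw [Filter.eventually_all]
      intro j
      by_cases hj : j ≠ i
      · simp only [hj, true_implies, ne_eq, not_false_eq_true]
        exact (hc i j).continuousAt.eventually_lt (hc i i).continuousAt (hst i hi j hj)
      · exact Filter.Eventually.of_forall fun ε h' => absurd h' hj
    · exact Filter.Eventually.of_forall fun ε h' => absurd h' hi
  have e2 : ∀ᶠ u in nhds w, ∀ i, i ∉ T → ∃ j, inner ℝ (u i) (u i) < inner ℝ (u i) (u j) := by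
    rw [Filter.eventually_all]
    intro i
    by_cases hi : i ∉ T
    · obtain ⟨j, hj⟩ := hun i hi
      have := (hc i i).continuousAt.eventually_lt (hc i j).continuousAt hj
      exact this.mono fun u hu _ => ⟨j, hu⟩
    · exact Filter.Eventually.of_forall fun ε h' => absurd h' hi
  obtain ⟨η, hη, h⟩ := Metric.eventually_nhds_iff.mp (e1.and e2)
  refine ⟨η, hη, fun u hu => h ?_⟩
  rw [dist_pi_lt_iff hη]
  intro i
  rw [dist_eq_norm]
  exact hu i

/-- The dual vectors depend continuously on the vertices. -/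
theorem dual_close {n : ℕ} (S : Affine.Simplex ℝ (EuclideanSpace ℝ (Fin n)) n)
    (w : Fin (n + 1) → EuclideanSpace ℝ (Fin n))
    (hw : ∀ i x y, (toBasis S).coord i x - (toBasis S).coord i y = inner ℝ (w i) (x - y))
    {η : ℝ} (hη : 0 < η) :
    ∃ δ > 0, ∀ S' : Affine.Simplex ℝ (EuclideanSpace ℝ (Fin n)) n,
      (∀ i, dist (S'.points i) (S.points i) < δ) →
      ∀ w' : Fin (n + 1) → EuclideanSpace ℝ (Fin n),
      (∀ i x y, (toBasis S').coord i x - (toBasis S').coord i y = inner ℝ (w' i) (x - y)) →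
      ∀ i, ‖w' i - w i‖ < η := by
  set W : ℝ := ∑ j, ‖w j‖ with hW
  have hW0 : 0 ≤ W := Finset.sum_nonneg fun j _ => norm_nonneg _
  refine ⟨min (1 / (2 * (W + 1))) (η / (2 * (W + 1) ^ 2)), by positivity, ?_⟩
  intro S' hS' w' hw' i
  set δ : ℝ := min (1 / (2 * (W + 1))) (η / (2 * (W + 1) ^ 2)) with hδ
  have hδ0 : 0 < δ := by positivity
  have hδ1 : δ ≤ 1 / (2 * (W + 1)) := min_le_left _ _
  have hδ2 : δ ≤ η / (2 * (W + 1) ^ 2) := min_le_right _ _
  have h4 : ‖w i‖ ≤ W := Finset.single_le_sum (f := fun j => ‖w j‖) (fun j _ => norm_nonneg _)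
    (Finset.mem_univ i)
  clear_value δ
  have hWδ : W * δ ≤ 1 / 2 := by
    have h1 : (W + 1) * δ ≤ 1 / 2 := by
      calc (W + 1) * δ ≤ (W + 1) * (1 / (2 * (W + 1))) :=
            mul_le_mul_of_nonneg_left hδ1 (by positivity)
        _ = 1 / 2 := by field_simp
    nlinarith
  -- the key identity
  have key : ∀ y : EuclideanSpace ℝ (Fin n), inner ℝ (w' i - w i) y =
      -∑ j, inner ℝ (w j) y * inner ℝ (w' i) (S'.points j - S.points j) := by
    intro y
    have a1 : ∀ j, inner ℝ (w j) y = (toBasis S).coord j y - (toBasis S).coord j 0 := by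
      intro j
      rw [hw, sub_zero]
    have a2 : ∑ j, inner ℝ (w j) y = 0 := by
      simp_rw [a1]
      rw [Finset.sum_sub_distrib, AffineBasis.sum_coord_apply_eq_one,
        AffineBasis.sum_coord_apply_eq_one, sub_self]
    have a3 : ∑ j, inner ℝ (w j) y • S.points j = y := by
      have e1 : ∑ k, (toBasis S).coord k y • (toBasis S) k = y :=
        (toBasis S).linear_combination_coord_eq_self y
      have e2 : ∑ k, (toBasis S).coord k 0 • (toBasis S) k = 0 :=
        (toBasis S).linear_combination_coord_eq_self 0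
      simp_rw [a1, sub_smul]
      rw [Finset.sum_sub_distrib]
      have e3 : ∑ k, (toBasis S).coord k y • S.points k = y := e1
      have e4 : ∑ k, (toBasis S).coord k 0 • S.points k = 0 := e2
      rw [e3, e4, sub_zero]
    have a4 : ∀ j, inner ℝ (w' i) (S'.points j) =
        (if i = j then 1 else 0) - (toBasis S').coord i 0 := by
      intro j
      have h1 := hw' i (toBasis S' j) 0
      rw [sub_zero] at h1
      have h2 : (toBasis S').coord i (toBasis S' j) = if i = j then 1 else 0 := by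
        rw [AffineBasis.coord_apply]
      rw [h2] at h1
      exact h1.symm
    have a5 : inner ℝ (w' i) y = ∑ j, inner ℝ (w j) y * inner ℝ (w' i) (S.points j) := by
      conv_lhs => rw [← a3]
      rw [inner_sum]
      simp_rw [real_inner_smul_right]
    have a6 : ∑ j, inner ℝ (w j) y * inner ℝ (w' i) (S'.points j) = inner ℝ (w i) y := by
      simp_rw [a4]
      have : ∀ j, inner ℝ (w j) y * ((if i = j then (1 : ℝ) else 0) - (toBasis S').coord i 0) =
          (if i = j then inner ℝ (w j) y else 0) - (toBasis S').coord i 0 * inner ℝ (w j) y := by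
        intro j
        split_ifs <;> ring
      simp_rw [this]
      rw [Finset.sum_sub_distrib, ← Finset.mul_sum, a2, mul_zero, sub_zero, Finset.sum_ite_eq]
      simp
    rw [inner_sub_left, a5, ← a6, ← Finset.sum_sub_distrib, ← Finset.sum_neg_distrib]
    apply Finset.sum_congr rfl
    intro j _
    rw [inner_sub_right]
    ring
  have h1 : ‖w' i - w i‖ ^ 2 ≤ W * δ * ‖w' i‖ * ‖w' i - w i‖ := by
    have e := key (w' i - w i)
    rw [real_inner_self_eq_norm_sq] at e
    rw [e, ← Finset.sum_neg_distrib]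
    have e2 : W * δ * ‖w' i‖ * ‖w' i - w i‖ = ∑ j, ‖w j‖ * ‖w' i - w i‖ * (‖w' i‖ * δ) := by
      rw [hW, Finset.sum_mul, Finset.sum_mul, Finset.sum_mul]
      apply Finset.sum_congr rfl
      intro j _
      ring
    rw [e2]
    apply Finset.sum_le_sum
    intro j _
    have b1 : |inner ℝ (w j) (w' i - w i)| ≤ ‖w j‖ * ‖w' i - w i‖ := abs_real_inner_le_norm _ _
    have b2 : |inner ℝ (w' i) (S'.points j - S.points j)| ≤ ‖w' i‖ * δ := by
      refine (abs_real_inner_le_norm _ _).trans ?_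
      apply mul_le_mul_of_nonneg_left _ (norm_nonneg _)
      have := hS' j
      rw [dist_eq_norm] at this
      exact this.le
    calc -(inner ℝ (w j) (w' i - w i) * inner ℝ (w' i) (S'.points j - S.points j))
        ≤ |inner ℝ (w j) (w' i - w i) * inner ℝ (w' i) (S'.points j - S.points j)| :=
          neg_le_abs _
      _ = |inner ℝ (w j) (w' i - w i)| * |inner ℝ (w' i) (S'.points j - S.points j)| :=
          abs_mul _ _
      _ ≤ _ := mul_le_mul b1 b2 (abs_nonneg _) (by positivity)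
  have h2 : ‖w' i - w i‖ ≤ W * δ * ‖w' i‖ := by
    rcases (norm_nonneg (w' i - w i)).eq_or_lt with h | h
    · rw [← h]
      exact mul_nonneg (mul_nonneg hW0 hδ0.le) (norm_nonneg _)
    · have : ‖w' i - w i‖ * ‖w' i - w i‖ ≤ (W * δ * ‖w' i‖) * ‖w' i - w i‖ := by
        rw [← sq]; exact h1
      exact le_of_mul_le_mul_right this h
  have h3 : ‖w' i‖ ≤ ‖w i‖ + ‖w' i - w i‖ := by
    have := norm_add_le (w i) (w' i - w i)
    rwa [add_sub_cancel] at this
  have h5 : ‖w' i‖ ≤ 2 * W := by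
    have : W * δ * ‖w' i‖ ≤ 1 / 2 * ‖w' i‖ := mul_le_mul_of_nonneg_right hWδ (norm_nonneg _)
    linarith
  have h6 : ‖w' i - w i‖ ≤ 2 * W ^ 2 * δ := by
    calc ‖w' i - w i‖ ≤ W * δ * ‖w' i‖ := h2
      _ ≤ W * δ * (2 * W) := mul_le_mul_of_nonneg_left h5 (mul_nonneg hW0 hδ0.le)
      _ = 2 * W ^ 2 * δ := by ring
  have h7 : 2 * (W + 1) ^ 2 * δ ≤ η := by
    calc 2 * (W + 1) ^ 2 * δ ≤ 2 * (W + 1) ^ 2 * (η / (2 * (W + 1) ^ 2)) :=
          mul_le_mul_of_nonneg_left hδ2 (by positivity)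
      _ = η := by field_simp
  have h8 : 2 * W ^ 2 * δ < 2 * (W + 1) ^ 2 * δ := by
    apply mul_lt_mul_of_pos_right _ hδ0
    nlinarith
  linarith

theorem exists_robust {n : ℕ} (hn : 1 ≤ n) {w : Fin (n + 1) → Fin n → ℝ}
    {T : Finset (Fin (n + 1))} (h : Cfg n w T) :
    ∃ (S : Affine.Simplex ℝ (EuclideanSpace ℝ (Fin n)) n) (δ : ℝ), 0 < δ ∧
      ∀ S' : Affine.Simplex ℝ (EuclideanSpace ℝ (Fin n)) n,
        (∀ i, dist (S'.points i) (S.points i) < δ) → ∀ i, StableFacet S' i ↔ i ∈ T := by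
  obtain ⟨v, hv⟩ := exists_vertices h
  obtain ⟨S, hS⟩ := simplex_of_dual (fun i => (WithLp.toLp 2 (w i) : EuclideanSpace ℝ (Fin n)))
    (fun j => (WithLp.toLp 2 (v j) : EuclideanSpace ℝ (Fin n))) (by
      intro i j
      rw [inner_toLp, hv])
  obtain ⟨η, hη, hgood⟩ := eventually_good
    (fun i => (WithLp.toLp 2 (w i) : EuclideanSpace ℝ (Fin n))) T
    (by simp_rw [inner_toLp]; exact h.st) (by simp_rw [inner_toLp]; exact h.un)
  obtain ⟨δ, hδ, hclose⟩ := dual_close S _ hS hη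
  refine ⟨S, δ, hδ, fun S' hS' i => ?_⟩
  obtain ⟨w', hw'⟩ := exists_dual (toBasis S')
  obtain ⟨g1, g2⟩ := hgood w' (hclose S' hS' w' hw')
  rw [stableFacet_iff hn S' w' hw']
  constructor
  · intro h1
    by_contra h2
    obtain ⟨j, hj⟩ := g2 i h2
    have hji : j ≠ i := by
      rintro rfl
      exact lt_irrefl _ hj
    exact lt_asymm hj (h1 j hji)
  · intro h1
    exact g1 i h1

/-- **Numbers of stable facets of uniform simplices.** -/
theorem result (n : ℕ) (hn : 1 ≤ n) (k : ℕ) :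
    ((∃ S : Affine.Simplex ℝ (EuclideanSpace ℝ (Fin n)) n, {i | StableFacet S i}.ncard = k) ↔
      (2 ≤ k ∧ k ≤ n + 1) ∨ (k = 1 ∧ 10 ≤ n)) ∧
    ((2 ≤ k ∧ k ≤ n + 1) ∨ (k = 1 ∧ 10 ≤ n) →
      ∃ (S : Affine.Simplex ℝ (EuclideanSpace ℝ (Fin n)) n) (δ : ℝ), 0 < δ ∧
        ∀ S' : Affine.Simplex ℝ (EuclideanSpace ℝ (Fin n)) n,
          (∀ i, dist (S'.points i) (S.points i) < δ) → {i | StableFacet S' i}.ncard = k) := by
  have hrob : (2 ≤ k ∧ k ≤ n + 1) ∨ (k = 1 ∧ 10 ≤ n) →
      ∃ (S : Affine.Simplex ℝ (EuclideanSpace ℝ (Fin n)) n) (δ : ℝ), 0 < δ ∧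
        ∀ S' : Affine.Simplex ℝ (EuclideanSpace ℝ (Fin n)) n,
          (∀ i, dist (S'.points i) (S.points i) < δ) → {i | StableFacet S' i}.ncard = k := by
    intro h
    obtain ⟨w, T, hw, hT⟩ := exists_cfg h
    obtain ⟨S, δ, hδ, hS⟩ := exists_robust hn hw
    refine ⟨S, δ, hδ, fun S' hS' => ?_⟩
    have : {i | StableFacet S' i} = (T : Set (Fin (n + 1))) := by
      ext i
      exact hS S' hS' i
    rw [this, Set.ncard_coe_finset, hT]
  refine ⟨⟨?_, ?_⟩, hrob⟩
  · rintro ⟨S, rfl⟩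
    have h1 : {i | StableFacet S i}.ncard ≤ n + 1 := by
      have := Set.ncard_le_ncard (Set.subset_univ {i | StableFacet S i}) (Set.toFinite _)
      rw [Set.ncard_univ, Nat.card_eq_fintype_card, Fintype.card_fin] at this
      exact this
    have h2 : {i | StableFacet S i}.ncard ≠ 0 := by
      intro h
      rw [Set.ncard_eq_zero (Set.toFinite _)] at h
      obtain ⟨i, hi⟩ := exists_stable hn S
      have : i ∈ {i | StableFacet S i} := hi
      rw [h] at this
      exact this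
    by_cases h3 : {i | StableFacet S i}.ncard = 1
    · right
      refine ⟨h3, ?_⟩
      by_contra hlt
      obtain ⟨a, ha⟩ := Set.ncard_eq_one.mp h3
      apply not_monostatic hn (by omega) S
      refine ⟨a, ?_, ?_⟩
      · have : a ∈ {i | StableFacet S i} := by rw [ha]; rfl
        exact this
      · intro i hi
        have : i ∈ {i | StableFacet S i} := hi
        rw [ha] at this
        exact this
    · left
      omega
  · intro h
    obtain ⟨S, δ, hδ, hS⟩ := hrob h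
    exact ⟨S, hS S (fun i => by rw [dist_self]; exact hδ)⟩

end Pool.Agent.Results.MP_93bd63_co.AllDimensions
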